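import Pool.Agent.H992.PM.Defs

/-!
# Convergence of the weighted local laws (S_PW)
-/

set_option autoImplicit false
open MeasureTheory Filter Topology Complex ProbabilityTheory
open scoped ContDiff ENNReal

namespace Pool.Agent.H551.PM

open Pool.Agent.W745.RW (TF)
open Pool.Agent.N661.BR (J0 MW lin shift IsStationary IsErgodic IsRandomWave meas_eval meas_shift
  meas_W)
open Pool.Agent.Y265.RW (sy rr)
open Pool.Agent.N814.BHM
open Pool.Agent.N814.BHASM
open Pool.Agent.H992.LB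
open Pool.Agent.H992.PM

variable {Ω : Set ℂ} {lam : ℕ → ℝ} {u : ℕ → ℂ → ℝ}

/-- the weighted mean of the exponential -/
noncomputable def GW (Ω : Set ℂ) (φ : ℂ → ℝ) (lam : ℝ) (u : ℂ → ℝ) (τ : ℂ →₀ ℝ) : ℂ :=
  ∫ p, (φ p.1 : ℂ) * eX lam u τ p ∂(P Ω)

theorem fst_meas {φ : ℂ → ℝ} (hφ : Wt Ω φ) :
    Measurable fun p : ℂ × (ℝ × Bool) => φ p.1 :=
  hφ.tf.1.continuous.measurable.comp measurable_fst

theorem GW_int (H : Hyp Ω lam u) {φ : ℂ → ℝ} (hφ : Wt Ω φ) (n : ℕ) (τ : ℂ →₀ ℝ) :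
    Integrable (fun p => (φ p.1 : ℂ) * eX (lam n) (u n) τ p) (P Ω) := by
  have := probP H
  refine Integrable.of_bound ((Complex.measurable_ofReal.comp (fst_meas hφ)).mul
    (eX_meas (H.sm n) τ)).aestronglyMeasurable 1 (Eventually.of_forall fun p => ?_)
  rw [norm_mul, eX_norm, mul_one]
  exact Pool.Agent.N40.BRSTATH.wnorm hφ _

theorem GW_bd (H : Hyp Ω lam u) {φ : ℂ → ℝ} (hφ : Wt Ω φ) (n : ℕ) (τ : ℂ →₀ ℝ) :
    ‖GW Ω φ (lam n) (u n) τ‖ ≤ ∫ p, φ p.1 ∂(P Ω) := by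
  refine norm_integral_le_of_norm_le (fst_le H hφ).1 (Eventually.of_forall fun p => ?_)
  rw [norm_mul, eX_norm, mul_one, Complex.norm_real, Real.norm_eq_abs,
    abs_of_nonneg (hφ.mem _).1]

theorem GW_diff (H : Hyp Ω lam u) {φ : ℂ → ℝ} (hφ : Wt Ω φ) (τ τ' : ℂ →₀ ℝ) {ε : ℝ}
    (hε : 0 < ε) :
    ∀ᶠ n in atTop, ‖GW Ω φ (lam n) (u n) τ - GW Ω φ (lam n) (u n) τ'‖ ≤
      √(nn (τ - τ')) + ε := by
  have := probP H
  obtain ⟨hfi, hle, hnn⟩ := fst_le H hφ
  set A : ℝ := √(nn (τ - τ')) + ε with hA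
  have hA0 : 0 < A := by positivity
  have h1 : nn (τ - τ') * ∫ p, φ p.1 ∂(P Ω) < A ^ 2 := by
    calc nn (τ - τ') * ∫ p, φ p.1 ∂(P Ω) ≤ nn (τ - τ') * 1 := by
          gcongr
          exact nn_nonneg _
      _ = √(nn (τ - τ')) ^ 2 := by rw [mul_one, Real.sq_sqrt (nn_nonneg _)]
      _ < A ^ 2 := by
          apply pow_lt_pow_left₀ _ (Real.sqrt_nonneg _) two_ne_zero
          rw [hA]
          linarith
  have hsm : ∀ᶠ n in atTop, ∀ j, 1 / √(lam n) * ‖pt (τ - τ') j‖ < 1 :=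
    Filter.eventually_all.2 fun j => small H _
  filter_upwards [(iso_SX H hφ (τ - τ')).eventually (gt_mem_nhds h1), hsm] with n hn hn2
  have e1 : GW Ω φ (lam n) (u n) τ - GW Ω φ (lam n) (u n) τ' =
      ∫ p, (φ p.1 : ℂ) * (eX (lam n) (u n) τ p - eX (lam n) (u n) τ' p) ∂(P Ω) := by
    unfold GW
    rw [← integral_sub (GW_int H hφ n τ) (GW_int H hφ n τ')]
    refine integral_congr_ae (Eventually.of_forall fun p => ?_)
    simp only
    ring
  rw [e1]
  have hsi : Integrable (fun p => φ p.1 * ‖SX (lam n) (u n) (τ - τ') p‖ ^ 2) (P Ω) := by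
    have := sumInt H hφ n (fun j => (((τ - τ') (pt (τ - τ') j) : ℝ) : ℂ)) (fun _ => 0)
      (pt (τ - τ')) hn2
    refine this.congr (Eventually.of_forall fun p => ?_)
    simp only [SX_pt]
  have e3 : ‖∫ p, (φ p.1 : ℂ) * (eX (lam n) (u n) τ p - eX (lam n) (u n) τ' p) ∂(P Ω)‖ ≤
      ∫ p, (A / 2 * φ p.1 + 1 / (2 * A) * (φ p.1 * ‖SX (lam n) (u n) (τ - τ') p‖ ^ 2)) ∂(P Ω) := by
    refine norm_integral_le_of_norm_le ((hfi.const_mul _).add (hsi.const_mul _))
      (Eventually.of_forall fun p => ?_)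
    rw [norm_mul, Complex.norm_real, Real.norm_eq_abs, abs_of_nonneg (hφ.mem _).1]
    have e4 := eX_sub (lam n) (u n) τ τ' p
    set s := ‖SX (lam n) (u n) (τ - τ') p‖
    have e5 : s ≤ A / 2 + 1 / (2 * A) * s ^ 2 := by
      have : 0 ≤ 1 / (2 * A) * (s - A) ^ 2 := by positivity
      have e6 : 1 / (2 * A) * (s - A) ^ 2 = A / 2 + 1 / (2 * A) * s ^ 2 - s := by
        field_simp
        ring
      linarith
    calc φ p.1 * ‖eX (lam n) (u n) τ p - eX (lam n) (u n) τ' p‖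
        ≤ φ p.1 * (A / 2 + 1 / (2 * A) * s ^ 2) :=
          mul_le_mul_of_nonneg_left (e4.trans e5) (hφ.mem _).1
      _ = A / 2 * φ p.1 + 1 / (2 * A) * (φ p.1 * s ^ 2) := by ring
  rw [integral_add (hfi.const_mul _) (hsi.const_mul _), integral_const_mul,
    integral_const_mul] at e3
  calc _ ≤ A / 2 * ∫ p, φ p.1 ∂(P Ω) +
        1 / (2 * A) * ∫ p, φ p.1 * ‖SX (lam n) (u n) (τ - τ') p‖ ^ 2 ∂(P Ω) := e3
    _ ≤ A / 2 * 1 + 1 / (2 * A) * A ^ 2 := by gcongr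
    _ = A := by
        field_simp
        ring

theorem GW_shift (H : Hyp Ω lam u) {φ : ℂ → ℝ} (hφ : Wt Ω φ) (τ : ℂ →₀ ℝ) (x : ℂ) {ε : ℝ}
    (hε : 0 < ε) :
    ∀ᶠ n in atTop, ‖GW Ω φ (lam n) (u n) (τ.mapDomain (· + x)) - GW Ω φ (lam n) (u n) τ‖ ≤ ε := by
  have := probP H
  have h1 := Pool.Agent.N40.BRSTATH.outer_lim H hφ (fun j => τ (pt τ j)) (pt τ) x
  have h2 := (tendsto_zero_iff_norm_tendsto_zero.1 h1).eventually
    (gt_mem_nhds (show (0:ℝ) < ε by positivity))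
  filter_upwards [h2] with n hn
  have hs : ∀ p, eX (lam n) (u n) (τ.mapDomain (· + x)) p =
      Pool.Agent.N814.BHASM.ex (lam n) (u n) (fun j => ((τ (pt τ j) : ℝ) : ℂ)) (fun j => pt τ j + x) p := by
    intro p
    unfold eX Pool.Agent.N814.BHASM.ex SX
    rw [mapDomain_sum τ x _ (fun _ => by simp) (fun _ _ _ => by push_cast; ring), sum_pt τ]
  have e1 : GW Ω φ (lam n) (u n) (τ.mapDomain (· + x)) - GW Ω φ (lam n) (u n) τ =
      ∫ p, (φ p.1 : ℂ) *
      (Pool.Agent.N814.BHASM.ex (lam n) (u n) (fun j => ((τ (pt τ j) : ℝ) : ℂ)) (fun j => pt τ j + x) p -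
        Pool.Agent.N814.BHASM.ex (lam n) (u n) (fun j => ((τ (pt τ j) : ℝ) : ℂ)) (pt τ) p) ∂(P Ω) := by
    unfold GW
    rw [← integral_sub (GW_int H hφ n _) (GW_int H hφ n τ)]
    refine integral_congr_ae (Eventually.of_forall fun p => ?_)
    simp only
    rw [hs p, eX_ex, mul_sub]
  rw [e1]
  exact hn.le

/-- **Convergence.** -/
theorem conv_w (H : Hyp Ω lam u) {γ : Measure MW} [IsProbabilityMeasure γ] (hγ : IsRandomWave γ)
    {φ : ℂ → ℝ} (hφ : Wt Ω φ) {U : Set ℂ} (hU : IsOpen U) (hne : U.Nonempty) {C : ℝ}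
    (hC : ∀ c : (U →₀ ℝ) →₀ ℂ, ∀ ε : ℝ, 0 < ε → ∀ᶠ n in atTop,
      ‖c.sum fun τ z => z * GW Ω φ (lam n) (u n) (τ.mapDomain Subtype.val)‖ ^ 2 ≤
        C * (∫ f, ‖trig (ev U) c f‖ ^ 2 ∂γ) + ε) (τ : ℂ →₀ ℝ) :
    Tendsto (fun n => GW Ω φ (lam n) (u n) τ) atTop
      (𝓝 ((∫ f, eγ τ f ∂γ) * ((∫ p, φ p.1 ∂(P Ω) : ℝ) : ℂ))) := by
  obtain ⟨hfi, hle, hnn⟩ := fst_le H hφ
  obtain ⟨a, ha⟩ : ∃ a : ℝ, ∫ p, φ p.1 ∂(P Ω) = a := ⟨_, rfl⟩
  rw [ha] at hle hnn ⊢
  rcases hnn.eq_or_lt with h0 | h0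
  · have h1 : ∀ n, GW Ω φ (lam n) (u n) τ = 0 := by
      intro n
      have h2 := GW_bd H hφ n τ
      rw [ha, ← h0] at h2
      exact norm_le_zero_iff.1 h2
    simp_rw [h1, ← h0, Complex.ofReal_zero, mul_zero]
    exact tendsto_const_nhds
  rw [tendsto_iff_ultrafilter]
  intro g hg
  -- the limits along the ultrafilter
  have hlim : ∀ τ : ℂ →₀ ℝ, ∃ L : ℂ, Tendsto (fun n => GW Ω φ (lam n) (u n) τ) g (𝓝 L) := by
    intro τ
    have h1 : (g.map fun n => GW Ω φ (lam n) (u n) τ : Filter ℂ) ≤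
        𝓟 (Metric.closedBall (0:ℂ) 1) := by
      rw [Filter.le_principal_iff, Ultrafilter.coe_map, Filter.mem_map]
      refine Filter.univ_mem' fun n => ?_
      rw [Set.mem_preimage, mem_closedBall_zero_iff]
      refine (GW_bd H hφ n τ).trans ?_
      rw [ha]
      exact hle
    obtain ⟨L, -, hL⟩ := (isCompact_closedBall (0:ℂ) 1).ultrafilter_le_nhds _ h1
    exact ⟨L, hL⟩
  choose L hL using hlim
  have hLd : ∀ τ τ', ‖L τ - L τ'‖ ≤ √(nn (τ - τ')) := by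
    intro τ τ'
    refine le_of_forall_pos_le_add fun ε hε => ?_
    exact le_of_tendsto ((hL τ).sub (hL τ')).norm (hg (GW_diff H hφ τ τ' hε))
  have hLs : ∀ τ x, L (τ.mapDomain (· + x)) = L τ := by
    intro τ x
    have h1 : ‖L (τ.mapDomain (· + x)) - L τ‖ ≤ 0 := by
      refine le_of_forall_pos_le_add fun ε hε => ?_
      rw [zero_add]
      exact le_of_tendsto ((hL _).sub (hL τ)).norm (hg (GW_shift H hφ τ x hε))
    exact sub_eq_zero.1 (norm_le_zero_iff.1 h1)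
  have hL0 : L 0 = (a : ℂ) := by
    refine tendsto_nhds_unique (hL 0) ?_
    have : ∀ n, GW Ω φ (lam n) (u n) 0 = (a : ℂ) := by
      intro n
      unfold GW eX SX
      simp only [Finsupp.sum_zero_index, Complex.zero_re, Complex.ofReal_zero, mul_zero,
        Complex.exp_zero, mul_one]
      rw [integral_complex_ofReal, ha]
    simp_rw [this]
    exact tendsto_const_nhds
  -- the functional
  let ℓ : ((U →₀ ℝ) →₀ ℂ) →ₗ[ℂ] ℂ :=
    { toFun := fun c => c.sum fun τ z => z * L (τ.mapDomain Subtype.val)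
      map_add' := fun c d => Finsupp.sum_add_index' (fun _ => zero_mul _) (fun _ _ _ => add_mul _ _ _)
      map_smul' := fun a c => by
        rw [Finsupp.sum_smul_index' (fun _ => zero_mul _), RingHom.id_apply, smul_eq_mul,
          Finsupp.mul_sum]
        refine Finsupp.sum_congr fun τ _ => ?_
        rw [smul_eq_mul, mul_assoc] }
  have hℓ : ∀ c, ‖ℓ c‖ ^ 2 ≤ C * ∫ f, ‖trig (ev U) c f‖ ^ 2 ∂γ := by
    intro c
    have h1 : Tendsto (fun n => ‖c.sum fun τ z => z * GW Ω φ (lam n) (u n)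
        (τ.mapDomain Subtype.val)‖ ^ 2) g (𝓝 (‖ℓ c‖ ^ 2)) := by
      refine Tendsto.pow (Tendsto.norm ?_) 2
      show Tendsto _ _ (𝓝 (c.sum fun τ z => z * L (τ.mapDomain Subtype.val)))
      unfold Finsupp.sum
      exact tendsto_finsetSum _ fun τ _ => (hL _).const_mul _
    refine le_of_forall_pos_le_add fun ε hε => ?_
    exact le_of_tendsto h1 (hg (hC c ε hε))
  obtain ⟨h, hh⟩ := riesz' (ev_meas U) ℓ γ hℓ
  have hm : MemLp (h : MW → ℂ) 2 γ := Lp.memLp h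
  -- on `U`
  have hU1 : ∀ τ : U →₀ ℝ, L (τ.mapDomain Subtype.val) = Rh γ h (τ.mapDomain Subtype.val) := by
    intro τ
    have h1 := hh (Finsupp.single τ 1)
    rw [inner_toL] at h1
    have h2 : ℓ (Finsupp.single τ 1) = L (τ.mapDomain Subtype.val) := by
      show (Finsupp.single τ (1:ℂ)).sum (fun τ z => z * L (τ.mapDomain Subtype.val)) = _
      rw [Finsupp.sum_single_index (zero_mul _), one_mul]
    rw [← h2, h1]
    unfold Rh
    refine integral_congr_ae (Eventually.of_forall fun f => ?_)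
    simp only
    congr 1
    unfold Pool.Agent.H992.LB.ex eγ val
    rw [Finsupp.sum_mapDomain_index (fun _ => by simp) (fun _ _ _ => by ring)]
    rfl
  have hU2 : ∀ τ : ℂ →₀ ℝ, (↑τ.support : Set ℂ) ⊆ U → L τ = Rh γ h τ := by
    intro τ hτ
    have h1 : τ = (τ.comapDomain (Subtype.val : U → ℂ) Subtype.val_injective.injOn).mapDomain
        Subtype.val := by
      rw [Finsupp.mapDomain_comapDomain _ Subtype.val_injective]
      intro w hw
      exact ⟨⟨w, hτ hw⟩, rfl⟩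
    rw [h1]
    exact hU1 _
  -- everywhere
  have hall : ∀ τ, L τ = Rh γ h τ := by
    intro τ
    set K : ℝ := (∫ f, ‖h f‖ ^ 2 ∂γ) + 2 with hK
    have hK0 : 0 < K := by
      have : 0 ≤ ∫ f, ‖h f‖ ^ 2 ∂γ := integral_nonneg fun f => by positivity
      positivity
    have h1 : ‖L τ - Rh γ h τ‖ ≤ 0 := by
      refine le_of_forall_pos_le_add fun ε hε => ?_
      rw [zero_add]
      obtain ⟨τ', hτ', hd⟩ := Ap.all hU hne τ (ε / K) (by positivity)
      have hn : nn (τ - τ') ≤ (ε / K) ^ 2 := by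
        refine nn_le (by positivity) fun α => ?_
        have : sb (τ - τ') α = sb τ α - sb τ' α := by
          have e := sb_add (τ - τ') τ' α
          rw [sub_add_cancel] at e
          rw [e]
          ring
        rw [this]
        exact hd α
      have e1 : ‖L τ - L τ'‖ ≤ ε / K := by
        refine (hLd τ τ').trans ?_
        rw [Real.sqrt_le_left (by positivity)]
        exact hn
      have e2 := Rh_diff hγ hm τ τ' (by positivity : 0 < ε / K) hn
      have e3 := hU2 τ' hτ'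
      calc ‖L τ - Rh γ h τ‖ = ‖(L τ - L τ') - (Rh γ h τ - Rh γ h τ')‖ := by
            rw [e3]
            congr 1
            ring
        _ ≤ ε / K + ε / K * ((∫ f, ‖h f‖ ^ 2 ∂γ) + 1) := (norm_sub_le _ _).trans (add_le_add e1 e2)
        _ = ε / K * K := by
            rw [hK]
            ring
        _ = ε := by field_simp
    exact sub_eq_zero.1 (norm_le_zero_iff.1 h1)
  -- normalisation
  have ha0 : (a : ℂ) ≠ 0 := by exact_mod_cast h0.ne'
  have hR : ∀ τ, (a : ℂ)⁻¹ * L τ = Rh γ (fun f => (a : ℂ)⁻¹ * h f) τ := by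
    intro τ
    rw [hall τ]
    unfold Rh
    rw [← integral_const_mul]
    refine integral_congr_ae (Eventually.of_forall fun f => ?_)
    simp only
    rw [map_mul, map_inv₀, Complex.conj_ofReal, mul_assoc]
  have hmix := Rh_mix hγ (hm.const_mul (a : ℂ)⁻¹) (L := fun τ => (a : ℂ)⁻¹ * L τ) hR
    (fun τ x => by simp only [hLs τ x]) (by simp only [hL0]; exact inv_mul_cancel₀ ha0) τ
  have h5 : L τ = (∫ f, eγ τ f ∂γ) * (a : ℂ) := by
    rw [← hmix]
    field_simp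
  rw [← h5]
  exact hL τ

theorem wt_of {ψ : ℂ → ℝ} (hψ : TF Ω ψ) (h0 : ∀ z, 0 ≤ ψ z) :
    ∃ M : ℝ, 0 < M ∧ Wt Ω (fun z => M⁻¹ * ψ z) := by
  obtain ⟨C, hC⟩ := hψ.1.continuous.bounded_above_of_compact_support hψ.2.1
  have hC0 : 0 ≤ C := (norm_nonneg _).trans (hC 0)
  refine ⟨C + 1, by positivity, ⟨⟨contDiff_const.mul hψ.1, hψ.2.1.mul_left, ?_⟩, fun z => ?_⟩⟩
  · exact (tsupport_mul_subset_right (f := fun _ => (C + 1)⁻¹) (g := ψ)).trans hψ.2.2
  · have h1 := hC z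
    rw [Real.norm_eq_abs, abs_of_nonneg (h0 z)] at h1
    refine ⟨mul_nonneg (by positivity) (h0 z), ?_⟩
    rw [inv_mul_le_iff₀ (by positivity)]
    linarith

theorem pw : S_PW := by
  intro Ω lam u H γ hγp hγ ψ hψ h0 U hU hne hC
  obtain ⟨C, hC⟩ := hC
  obtain ⟨M, hM, hφ⟩ := wt_of hψ h0
  have hMc : (M : ℂ) ≠ 0 := by exact_mod_cast hM.ne'
  have hGW : ∀ n τ, GW Ω (fun z => M⁻¹ * ψ z) (lam n) (u n) τ =
      (M : ℂ)⁻¹ * ∫ p, (ψ p.1 : ℂ) * eX (lam n) (u n) τ p ∂(P Ω) := by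
    intro n τ
    unfold GW
    rw [← integral_const_mul]
    refine integral_congr_ae (Eventually.of_forall fun p => ?_)
    simp only
    push_cast
    ring
  have key := conv_w H hγ hφ hU hne (C := (M⁻¹) ^ 2 * C) (fun c ε hε => by
    have e := c.support.equivFin
    have h1 := hC c.support.card (fun m => c (e.symm m).1)
      (fun m => ((e.symm m).1).mapDomain Subtype.val) (fun m => by
        intro x hx
        have h2 := Finsupp.mapDomain_support (Finset.mem_coe.1 hx)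
        rw [Finset.mem_image] at h2
        obtain ⟨y, -, rfl⟩ := h2
        exact y.2) (M ^ 2 * ε) (by positivity)
    filter_upwards [h1] with n hn
    have e1 : (c.sum fun τ z => z * GW Ω (fun z => M⁻¹ * ψ z) (lam n) (u n)
        (τ.mapDomain Subtype.val)) = (M : ℂ)⁻¹ * ∑ m, c (e.symm m).1 *
          ∫ p, (ψ p.1 : ℂ) * eX (lam n) (u n) (((e.symm m).1).mapDomain Subtype.val) p ∂(P Ω) := by
      unfold Finsupp.sum
      rw [← Finset.sum_coe_sort, Finset.mul_sum]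
      refine Fintype.sum_equiv e _ _ fun x => ?_
      rw [Equiv.symm_apply_apply]
      beta_reduce
      rw [hGW]
      ring
    have e2 : ∀ f, trig (ev U) c f = ∑ m, c (e.symm m).1 *
        eγ (((e.symm m).1).mapDomain Subtype.val) f := by
      intro f
      unfold trig Finsupp.sum
      rw [← Finset.sum_coe_sort]
      refine Fintype.sum_equiv e _ _ fun x => ?_
      rw [Equiv.symm_apply_apply]
      congr 1
      unfold Pool.Agent.H992.LB.ex eγ val
      rw [Finsupp.sum_mapDomain_index (fun _ => by simp) (fun _ _ _ => by ring)]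
      rfl
    simp_rw [e2]
    rw [e1, norm_mul, mul_pow, norm_inv, Complex.norm_real, Real.norm_eq_abs, abs_of_pos hM]
    calc (M⁻¹) ^ 2 * _ ≤ (M⁻¹) ^ 2 * (C * (∫ f, ‖∑ m, c (e.symm m).1 *
          eγ (((e.symm m).1).mapDomain Subtype.val) f‖ ^ 2 ∂γ) + M ^ 2 * ε) := by gcongr
      _ = _ := by
          field_simp)
  intro τ
  have h2 := (key τ).const_mul (M : ℂ)
  have h3 : ∀ n, (M : ℂ) * GW Ω (fun z => M⁻¹ * ψ z) (lam n) (u n) τ =
      ∫ p, (ψ p.1 : ℂ) * eX (lam n) (u n) τ p ∂(P Ω) := by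
    intro n
    rw [hGW]
    field_simp
  simp_rw [h3] at h2
  have h4 : (M : ℂ) * ((∫ f, eγ τ f ∂γ) * ((∫ p, (fun z => M⁻¹ * ψ z) p.1 ∂(P Ω) : ℝ) : ℂ)) =
      (∫ f, eγ τ f ∂γ) * ∫ p, (ψ p.1 : ℂ) ∂(P Ω) := by
    rw [integral_const_mul, integral_complex_ofReal]
    push_cast
    field_simp
  rw [← h4]
  exact h2

end Pool.Agent.H551.PM
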